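import Pool.Agent.J6H4.Supra.Restricted

/-! # MP_f53b3d_al: groups generated by commuting families of subgroups

The definitions of `Supramenable` and `ExponentiallyBounded` are in the file `J6H4/Supra/Defs`; the
restricted direct product of a family of groups is defined in `J6H4/Supra/Restricted`.

1. Let the group `Γ` be generated by a family (of any cardinality) of pairwise commuting subgroups
   `H i`. Then `Γ` is supramenable if and only if all `H i` are supramenable and of any two of them
   one is exponentially bounded. This covers central products.
2. The restricted direct product of a family of groups `G i` is supramenable if and only if all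
   `G i` are supramenable and of any two of them one is exponentially bounded. -/

set_option autoImplicit false

universe u v

namespace Pool.Agent.Results.MP_f53b3d_al.CommutingFamilies

open Pool.Agent.J6H4.Supra

theorem result :
    (∀ (Γ : Type u) [Group Γ] (ι : Type v) (H : ι → Subgroup Γ),
      (∀ i j, i ≠ j → ∀ x ∈ H i, ∀ y ∈ H j, x * y = y * x) → ⨆ i, H i = ⊤ →
      (Supramenable Γ ↔ (∀ i, Supramenable (H i)) ∧
        ∀ i j, i ≠ j → ExponentiallyBounded (H i) ∨ ExponentiallyBounded (H j))) ∧
    (∀ (ι : Type v) (G : ι → Type u) [∀ i, Group (G i)],
      Supramenable (RestrictedProduct G) ↔ (∀ i, Supramenable (G i)) ∧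
        ∀ i j, i ≠ j → ExponentiallyBounded (G i) ∨ ExponentiallyBounded (G j)) :=
  ⟨fun _ _ _ H h1 h2 => supramenable_iff_of_commuting_family H h1 h2,
    fun _ _ _ => supramenable_restrictedProduct_iff⟩

end Pool.Agent.Results.MP_f53b3d_al.CommutingFamilies
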